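import Pool.Agent.MP_db5b97_nt.H31.SpecG

/-! Groups with a commutative transitive normal subgroup, and a lemma of Wielandt. -/

namespace Pool.Agent.MP_db5b97_nt.H59

open MulAction Pool.Agent.MP_db5b97_nt.H31

section hol

variable {L O : Type} [Group L] [MulAction L O]

/-- the points fixed by a subgroup -/
def fx (O : Type) [MulAction L O] (J : Subgroup L) : Set O := {y | ∀ j ∈ J, j • y = y}

theorem agree {A : Subgroup L} (htr : ∀ x y : O, ∃ a ∈ A, a • x = y)
    (hc : ∀ a ∈ A, ∀ b ∈ A, ∀ x : O, a • b • x = b • a • x) {a b : L} (ha : a ∈ A) (hb : b ∈ A)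
    {z : O} (h : a • z = b • z) (y : O) : a • y = b • y := by
  obtain ⟨c, hcA, rfl⟩ := htr z y
  rw [hc a ha c hcA, hc b hb c hcA, h]

theorem conj_smul_fixed {j a : L} {z : O} (h : j • z = z) : (j * a * j⁻¹) • z = j • a • z := by
  have h' : j⁻¹ • z = z := inv_smul_eq_iff.2 h.symm
  rw [mul_smul, mul_smul, h']

theorem double [Finite O] {A : Subgroup L} (hA : A.Normal) (htr : ∀ x y : O, ∃ a ∈ A, a • x = y)
    (hc : ∀ a ∈ A, ∀ b ∈ A, ∀ x : O, a • b • x = b • a • x) {x0 : O} {J J' : Subgroup L}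
    (hJ : x0 ∈ fx O J) (hle : J' ≤ J) {y : O} (hy : y ∈ fx O J') (hy' : y ∉ fx O J) :
    2 * (fx O J).ncard ≤ (fx O J').ncard := by
  obtain ⟨a, haA, rfl⟩ := htr x0 y
  have hsub : fx O J ⊆ fx O J' := fun z hz j hj => hz j (hle hj)
  have h1 : (fun z : O => a • z) '' fx O J ⊆ fx O J' := by
    rintro _ ⟨z, hz, rfl⟩ j hj
    have e0 : (j * a * j⁻¹) • x0 = a • x0 := by
      rw [conj_smul_fixed (hJ j (hle hj))]
      exact hy j hj
    have e1 := agree htr hc (hA.conj_mem a haA j) haA e0 z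
    rw [conj_smul_fixed (hz j (hle hj))] at e1
    exact e1
  have h2 : Disjoint (fx O J) ((fun z : O => a • z) '' fx O J) := by
    rw [Set.disjoint_left]
    rintro _ hw ⟨z, hz, rfl⟩
    apply hy'
    intro j hj
    have e0 : (j * a * j⁻¹) • z = a • z := by
      rw [conj_smul_fixed (hz j hj)]
      exact hw j hj
    have e1 := agree htr hc (hA.conj_mem a haA j) haA e0 x0
    rw [conj_smul_fixed (hJ j hj)] at e1
    exact e1
  have h3 : ((fun z : O => a • z) '' fx O J).ncard = (fx O J).ncard :=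
    Set.ncard_image_of_injective _ (MulAction.injective a)
  have h4 := Set.ncard_le_ncard (Set.union_subset hsub h1) (Set.toFinite _)
  rw [Set.ncard_union_eq h2 (Set.toFinite _) (Set.toFinite _), h3] at h4
  omega

theorem mem_ker_iff {g : L} : g ∈ (toPermHom L O).ker ↔ ∀ y : O, g • y = y := by
  rw [MonoidHom.mem_ker, Equiv.ext_iff]
  rfl

theorem step [Finite L] [Fintype O] (J : Subgroup L) (y : O) :
    (toPermHom L O).ker.relIndex J ≤
      (toPermHom L O).ker.relIndex (stabilizer L y ⊓ J) * Fintype.card O := by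
  have hk : (toPermHom L O).ker ≤ stabilizer L y := fun g hg => mem_ker_iff.1 hg y
  have h1 := Subgroup.relIndex_inf_mul_relIndex (toPermHom L O).ker (stabilizer L y) J
  rw [inf_eq_left.2 hk] at h1
  rw [← h1]
  apply Nat.mul_le_mul_left
  have h2 : (stabilizer L y).relIndex J ≤ (stabilizer L y).relIndex ⊤ :=
    Subgroup.relIndex_le_of_le_right le_top (by
      rw [Subgroup.relIndex_top_right]
      exact Subgroup.index_ne_zero_of_finite)
  rw [Subgroup.relIndex_top_right, index_stabilizer] at h2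
  refine h2.trans ?_
  rw [← Nat.card_eq_fintype_card, ← Set.ncard_univ]
  exact Set.ncard_le_ncard (Set.subset_univ _) (Set.toFinite _)

theorem hol_ind [Finite L] [Fintype O] {A : Subgroup L} (hA : A.Normal)
    (htr : ∀ x y : O, ∃ a ∈ A, a • x = y)
    (hc : ∀ a ∈ A, ∀ b ∈ A, ∀ x : O, a • b • x = b • a • x) (x0 : O) (k : ℕ) :
    ∀ J : Subgroup L, x0 ∈ fx O J → Fintype.card O < 2 ^ (k + 1) * (fx O J).ncard →
      (toPermHom L O).ker.relIndex J ≤ Fintype.card O ^ k := by
  have hpos : 0 < Fintype.card O := Fintype.card_pos_iff.2 ⟨x0⟩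
  have htriv : ∀ J : Subgroup L, (∀ y, y ∈ fx O J) → (toPermHom L O).ker.relIndex J = 1 :=
    fun J h => Subgroup.relIndex_eq_one.2 fun g hg => mem_ker_iff.2 fun y => h y g hg
  induction k with
  | zero =>
    intro J hJ hlt
    by_cases h : ∀ y, y ∈ fx O J
    · rw [htriv J h, pow_zero]
    · obtain ⟨y, hy⟩ := not_forall.1 h
      have hb : y ∈ fx O (⊥ : Subgroup L) := fun j hj => by
        rw [Subgroup.mem_bot.1 hj, one_smul]
      have h1 := double hA htr hc hJ bot_le hb hy
      have h2 : (fx O (⊥ : Subgroup L)).ncard ≤ Fintype.card O := by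
        rw [← Nat.card_eq_fintype_card, ← Set.ncard_univ]
        exact Set.ncard_le_ncard (Set.subset_univ _) (Set.toFinite _)
      omega
  | succ k ih =>
    intro J hJ hlt
    by_cases h : ∀ y, y ∈ fx O J
    · rw [htriv J h]
      exact Nat.one_le_pow _ _ hpos
    · obtain ⟨y, hy⟩ := not_forall.1 h
      have hb : y ∈ fx O (stabilizer L y ⊓ J) := fun j hj => hj.1
      have h1 := double hA htr hc hJ inf_le_right hb hy
      have h2 := ih (stabilizer L y ⊓ J) (fun j hj => hJ j hj.2) (by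
        calc Fintype.card O < 2 ^ (k + 1 + 1) * (fx O J).ncard := hlt
          _ = 2 ^ (k + 1) * (2 * (fx O J).ncard) := by ring
          _ ≤ _ := Nat.mul_le_mul_left _ h1)
      calc (toPermHom L O).ker.relIndex J ≤ _ := step J y
        _ ≤ Fintype.card O ^ k * Fintype.card O := Nat.mul_le_mul_right _ h2
        _ = _ := (pow_succ _ _).symm

end hol

theorem rowHOL : RowHOL := by
  intro L O _ _ _ _ hne A hA htr hc
  obtain ⟨x0⟩ := hne
  have hx : x0 ∈ fx O (stabilizer L x0 ⊓ ⊤) := fun j hj => hj.1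
  have hp : 0 < (fx O (stabilizer L x0 ⊓ ⊤)).ncard :=
    (Set.ncard_pos (Set.toFinite _)).2 ⟨x0, hx⟩
  have h1 := hol_ind hA htr hc x0 (Nat.log 2 (Fintype.card O)) _ hx
    ((Nat.lt_pow_succ_log_self one_lt_two _).trans_le (Nat.le_mul_of_pos_right _ hp))
  have h2 := step (O := O) (⊤ : Subgroup L) x0
  rw [Subgroup.relIndex_top_right] at h2
  refine h2.trans ?_
  rw [add_comm, pow_succ]
  exact Nat.mul_le_mul_right _ h1

section wie

variable {G X : Type} [Group G] [MulAction G X]

/-- the elements fixing `w` that act with order a power of `p` -/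
def pel (G : Type) [Group G] [MulAction G X] (p : ℕ) (w : X) : Set G :=
  {g | g • w = w ∧ ∃ k : ℕ, ∀ v : X, g ^ p ^ k • v = v}

theorem pel_conj {p : ℕ} {w : X} {g : G} (h : G) (hg : g ∈ pel G p w) :
    h * g * h⁻¹ ∈ pel G p (h • w) := by
  obtain ⟨h1, k, h2⟩ := hg
  refine ⟨by rw [mul_smul, mul_smul, inv_smul_smul, h1], k, fun v => ?_⟩
  rw [conj_pow, mul_smul, mul_smul, h2, smul_inv_smul]

theorem pel_smul (p : ℕ) (w : X) (h : G) :
    pel G p (h • w) = (fun g => h * g * h⁻¹) '' pel G p w := by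
  ext g
  constructor
  · intro hg
    have := pel_conj h⁻¹ hg
    rw [inv_smul_smul] at this
    exact ⟨_, this, by group⟩
  · rintro ⟨g, hg, rfl⟩
    exact pel_conj h hg

theorem conj_inj (h : G) : Function.Injective fun g : G => h * g * h⁻¹ := fun _ _ hab =>
  mul_left_cancel (mul_right_cancel hab)

theorem pel_block (p : ℕ) (x : X) : IsBlock G {w : X | pel G p w = pel G p x} := by
  rw [isBlock_iff_smul_eq_of_mem]
  intro g a ha hga
  have ha' : pel G p a = pel G p x := ha
  have hga' : pel G p (g • a) = pel G p x := hga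
  ext w
  rw [Set.mem_smul_set_iff_inv_smul_mem]
  obtain ⟨u, rfl⟩ : ∃ u, w = g • u := ⟨g⁻¹ • w, (smul_inv_smul g w).symm⟩
  rw [inv_smul_smul]
  show pel G p u = pel G p x ↔ pel G p (g • u) = pel G p x
  rw [← hga']
  nth_rewrite 1 [hga', ← ha']
  rw [pel_smul, pel_smul, (conj_inj g).image_injective.eq_iff]

theorem triv_of_not_PD {H Y : Type} [Group H] [MulAction H Y] {p : ℕ} (h : ¬ PD p H Y) (k : ℕ) :
    ∀ g : H, (∀ v : Y, g ^ p ^ k • v = v) → ∀ v : Y, g • v = v := by
  induction k with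
  | zero =>
    intro g hg v
    simpa using hg v
  | succ k ih =>
    intro g hg
    have h1 := ih (g ^ p) fun v => by
      rw [← pow_mul, ← pow_succ']
      exact hg v
    by_contra hn
    obtain ⟨v, hv⟩ := not_forall.1 hn
    exact h ⟨g, ⟨v, hv⟩, h1⟩

end wie

theorem rowWIE : RowWIE := by
  intro G X _ _ _ _ p x z _ hprim hg hPD
  by_contra hn
  obtain ⟨g0, hg1, hg2⟩ := hg
  have hxz : z ≠ x := by
    rintro rfl
    exact hg2 hg1
  have hsub : pel G p x ⊆ pel G p z := by
    rintro g ⟨h1, k, h2⟩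
    refine ⟨?_, k, h2⟩
    have := triv_of_not_PD hn k ⟨g, h1⟩ (fun v => Subtype.ext (h2 v)) ⟨z, mem_orbit_self z⟩
    exact congrArg Subtype.val this
  obtain ⟨h, rfl⟩ := hprim.exists_smul_eq x z
  have hc : (pel G p (h • x)).ncard = (pel G p x).ncard := by
    rw [pel_smul]
    exact Set.ncard_image_of_injective _ (conj_inj h)
  have heq : pel G p x = pel G p (h • x) :=
    Set.eq_of_subset_of_ncard_le hsub hc.le (Set.toFinite _)
  rcases hprim.isTrivialBlock_of_isBlock (pel_block (G := G) p x) with hs | hu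
  · exact hxz (hs heq.symm rfl)
  · obtain ⟨g, ⟨v, hv⟩, hgp⟩ := hPD
    have h1 : (g : G) ∈ pel G p x := ⟨g.2, 1, fun w => by
      rw [pow_one]
      exact hgp w⟩
    have h2 : v ∈ {w : X | pel G p w = pel G p x} := hu ▸ Set.mem_univ v
    have h3 : pel G p v = pel G p x := h2
    rw [← h3] at h1
    exact hv h1.1

end Pool.Agent.MP_db5b97_nt.H59
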